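import Pool.Agent.Helper5.FV.Stmts

/-! Project FV, row DEC: decomposition of the numbers of colourings. -/

set_option autoImplicit false

open Finset Pool.Agent.Helper8.UN

namespace Pool.Agent.Helper5.FV

theorem st_DEC (h1 : ST_CLS) (h2 : ST_FBC) (h3 : ST_FBS) : ST_DEC := by
  classical
  intro n k E W0 hT
  constructor
  · have h : (CC E univ k).card =
        ∑ Q ∈ QQ E W0, ((CC E univ k).filter (fun f => cls W0 f = Q)).card :=
      Finset.card_eq_sum_card_fiberwise (fun f hf => (h1 n k E W0 f hT hf).1)
    show (CC E univ k).card = _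
    rw [h]
    apply Finset.sum_congr rfl
    intro Q hQ
    rw [← h2 n k E W0 Q hT hQ]
  · have hsub : ∀ f ∈ SS E univ k, f ∈ CC E univ k := by
      have h0 : SS E univ k ⊆ CC E univ k := by
        unfold SS
        exact @Finset.filter_subset _ _ (fun a => Classical.propDecidable _) _
      exact fun f hf => h0 hf
    have h : (SS E univ k).card =
        ∑ Q ∈ QQ E W0, ((SS E univ k).filter (fun f => cls W0 f = Q)).card :=
      Finset.card_eq_sum_card_fiberwise (fun f hf => (h1 n k E W0 f hT (hsub f hf)).1)
    show (SS E univ k).card = _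
    rw [h]
    apply Finset.sum_congr rfl
    intro Q hQ
    rw [← h3 n k E W0 Q hT hQ]

end Pool.Agent.Helper5.FV
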